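import Mathlib

/-!
# The sieved random model for the primes (Cramer, Granville)

`z : ℕ → ℕ` is a sieve level: in the dyadic block `[2 ^ k, 2 ^ (k + 1))` the model first removes
the integers having a prime factor `≤ z k`.  The remaining ones are kept independently, each with
probability `1 / (V (z k) * log n)` (capped at one), where `V (z k)` is the density of the
integers without prime factor `≤ z k`; thus the expected density near `n` is `1 / log n`.
-/

set_option autoImplicit false

namespace Pool.Agent.H50.Cr

open Finset MeasureTheory ProbabilityTheory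

/-- `n` has no prime factor `≤ z`. -/
def Rgh (z n : ℕ) : Prop := ∀ p : ℕ, p.Prime → p ≤ z → ¬ p ∣ n

/-- primes `≤ z` -/
def Pz (z : ℕ) : Finset ℕ := (Ioc 0 z).filter Nat.Prime

/-- `V z = ∏_{p ≤ z} (1 - 1/p)` -/
noncomputable def V (z : ℕ) : ℝ := ∏ p ∈ Pz z, (1 - 1 / (p : ℝ))

open Classical in
/-- The probability with which `n` is kept in the model with sieve level `z`: zero if `n` has a
prime factor `≤ z (⌊log₂ n⌋)`, and otherwise `1 / (V log n)` (capped at `1`), where `V` is the
density of the integers free of such primes. -/
noncomputable def keepProb (z : ℕ → ℕ) (n : ℕ) : ℝ :=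
  if Rgh (z (Nat.log 2 n)) n then min 1 (1 / (V (z (Nat.log 2 n)) * Real.log n)) else 0

/-- `A n` is the event that `n` belongs to the random set; these events are independent, and
`n` is kept with probability `keepProb z n`. -/
structure IsSievedModel {Ω : Type*} [MeasurableSpace Ω] (μ : Measure Ω) (z : ℕ → ℕ)
    (A : ℕ → Set Ω) : Prop where
  measurable : ∀ n, MeasurableSet (A n)
  indep : iIndepSet A μ
  prob : ∀ n, μ (A n) = ENNReal.ofReal (keepProb z n)

/-- The Cramer constant of a set `S = {q₀ < q₁ < ...}` of natural numbers: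
`limsup (q_{k+1} - q_k) / (log q_k)²`. -/
noncomputable def cramerLimsup (S : Set ℕ) : EReal :=
  Filter.limsup (fun k : ℕ => ((((Nat.nth (· ∈ S) (k + 1) : ℝ) - Nat.nth (· ∈ S) k) /
    Real.log (Nat.nth (· ∈ S) k) ^ 2 : ℝ) : EReal)) Filter.atTop

end Pool.Agent.H50.Cr
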